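import Pool.Agent.LE.StmtsQD
import Pool.Agent.Helper61_BED.Cov

/-!
# LQD, row DIA: the diagonal of the resolvent is nearly constant
-/

set_option autoImplicit false

open MeasureTheory ProbabilityTheory Function Filter

open scoped ENNReal BigOperators Topology NNReal ComplexOrder Matrix

noncomputable section

namespace Pool.Agent.LE.QD.H20

open Pool.Agent.Anderson hiding box mem_box card_box
open Pool.Agent.Loc Pool.Agent.Mob Pool.Agent.Helper54.Bal
  Pool.Agent.Helper96.EXP Pool.Agent.BED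
open Pool.Agent.LE.MN Pool.Agent.LE.CL Pool.Agent.LE.IR Pool.Agent.LE.QD

/-- two uses of the Cauchy-Schwarz inequality -/
theorem cs3 {X : Type} [Fintype X] (D a b : X → ℝ) (ℓ : ℝ) (ha0 : ∀ y, 0 ≤ a y)
    (hb0 : ∀ y, 0 ≤ b y) (ha : Real.sqrt (∑ y, a y ^ 4) ≤ ℓ) (hb : Real.sqrt (∑ y, b y ^ 4) ≤ ℓ) :
    ∑ y, |D y| * (a y * b y) ≤ ℓ * Real.sqrt (∑ y, D y ^ 2) := by
  have h1 : ∑ y, |D y| * (a y * b y) ≤
      Real.sqrt (∑ y, |D y| ^ 2) * Real.sqrt (∑ y, (a y * b y) ^ 2) :=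
    Real.sum_mul_le_sqrt_mul_sqrt _ _ _
  have h2 : ∑ y, (a y * b y) ^ 2 ≤
      Real.sqrt (∑ y, (a y ^ 2) ^ 2) * Real.sqrt (∑ y, (b y ^ 2) ^ 2) := by
    have := Real.sum_mul_le_sqrt_mul_sqrt Finset.univ (fun y => a y ^ 2) (fun y => b y ^ 2)
    simpa [mul_pow] using this
  have e1 : ∑ y, (a y ^ 2) ^ 2 = ∑ y, a y ^ 4 := by
    refine Finset.sum_congr rfl fun y _ => ?_
    ring
  have e2 : ∑ y, (b y ^ 2) ^ 2 = ∑ y, b y ^ 4 := by
    refine Finset.sum_congr rfl fun y _ => ?_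
    ring
  rw [e1, e2] at h2
  have hℓ : 0 ≤ ℓ := (Real.sqrt_nonneg _).trans ha
  have h3 : Real.sqrt (∑ y, a y ^ 4) * Real.sqrt (∑ y, b y ^ 4) ≤ ℓ * ℓ :=
    mul_le_mul ha hb (Real.sqrt_nonneg _) hℓ
  have h4 : Real.sqrt (∑ y, (a y * b y) ^ 2) ≤ ℓ := by
    rw [Real.sqrt_le_left hℓ]
    calc ∑ y, (a y * b y) ^ 2 ≤ ℓ * ℓ := h2.trans h3
      _ = ℓ ^ 2 := by ring
  have e3 : ∑ y, |D y| ^ 2 = ∑ y, D y ^ 2 := by
    refine Finset.sum_congr rfl fun y _ => ?_
    rw [sq_abs]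
  rw [e3] at h1
  calc ∑ y, |D y| * (a y * b y) ≤
      Real.sqrt (∑ y, D y ^ 2) * Real.sqrt (∑ y, (a y * b y) ^ 2) := h1
    _ ≤ Real.sqrt (∑ y, D y ^ 2) * ℓ := mul_le_mul_of_nonneg_left h4 (Real.sqrt_nonneg _)
    _ = ℓ * Real.sqrt (∑ y, D y ^ 2) := by ring

/-- row DIA -/
theorem dia (hral : RalStmt) (hres : ResStmt) (hlcc : LccStmt) : DiaStmt := by
  intro d M _ v E η η₁ A B p r hη hη₁ hA hB hSob hpm hFB hp hr
  obtain ⟨z, hz⟩ : ∃ z : ℂ, z = ⟨E, η⟩ := ⟨_, rfl⟩
  have hzim : z.im = η := by rw [hz]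
  have hz0 : 0 < z.im := by rw [hzim]; exact hη
  rw [← hz]
  obtain ⟨ℓ, hℓ⟩ : ∃ ℓ : ℝ, ℓ = 10 * A * B * (η₁ / η) ^ 2 := ⟨_, rfl⟩
  have hη₁0 : 0 < η₁ := lt_of_lt_of_le hη hη₁
  have hℓ0 : 0 < ℓ := by rw [hℓ]; positivity
  rw [← hℓ]
  obtain ⟨S, hS⟩ : ∃ S : Set (Tor d M → ℝ), S = {V | FBq E η₁ (1 / 4) V} := ⟨_, rfl⟩
  have hSc : gau d M v Sᶜ ≤ ENNReal.ofReal p := by
    have : Sᶜ = {V : Tor d M → ℝ | ¬ FBq E η₁ (1 / 4) V} := by rw [hS]; rfl
    rw [this]; exact hFB
  -- Lipschitz bound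
  have hLip : ∀ (x : Tor d M), ∀ V ∈ S, ∀ V' ∈ S, ‖rs V z x x - rs V' z x x‖ ≤
      ℓ * Real.sqrt (∑ i, (V i - V' i) ^ 2) := by
    intro x V hV V' hV'
    rw [hS] at hV hV'
    have r1 := (hres d M V E η η₁ A B hη hη₁ hA.le hSob hpm hV).2.2.1 x
    have r2 := (hres d M V' E η η₁ A B hη hη₁ hA.le hSob hpm hV').2.2.1 x
    rw [← hz, ← hℓ] at r1 r2
    obtain ⟨-, -, -, -, -, hid, -⟩ := hral d M V z hz0
    have hsym := (hral d M V' z hz0).2.1
    have h1 : rs V z x x - rs V' z x x =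
        -∑ y, rs V z x y * (((V y - V' y : ℝ) : ℂ) * rs V' z y x) := by
      have := congrFun (congrFun (hid V') x) x
      rw [Matrix.sub_apply, Matrix.neg_apply, Matrix.mul_assoc, Matrix.mul_apply] at this
      rw [this]
      congr 1
      refine Finset.sum_congr rfl fun y _ => ?_
      rw [Matrix.diagonal_mul]
    rw [h1, norm_neg]
    refine (norm_sum_le _ _).trans ?_
    refine le_trans (le_of_eq ?_) (cs3 (fun y => V y - V' y) (fun y => ‖rs V z x y‖)
      (fun y => ‖rs V' z x y‖) ℓ (fun _ => norm_nonneg _) (fun _ => norm_nonneg _) r1 r2)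
    refine Finset.sum_congr rfl fun y _ => ?_
    rw [norm_mul, norm_mul, Complex.norm_real, Real.norm_eq_abs, hsym y x]
    ring
  -- continuity and bounds
  have hcont : ∀ x : Tor d M, Continuous fun V : Tor d M → ℝ => rs V z x x := fun x =>
    (hral d M 0 z hz0).2.2.2.2.2.2.2.2.2.1 x x
  have hbd : ∀ (V : Tor d M → ℝ) (x : Tor d M), ‖rs V z x x‖ ≤ 1 / η := by
    intro V x
    have := (hral d M V z hz0).2.2.2.2.2.2.2.2.2.2.2 x x
    rwa [hzim] at this
  have : IsProbabilityMeasure (gau d M v) := by unfold gau; infer_instance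
  have hint : ∀ x : Tor d M, Integrable (fun V : Tor d M → ℝ => rs V z x x) (gau d M v) := by
    intro x
    refine (integrable_const (1 / η)).mono' (hcont x).aestronglyMeasurable ?_
    exact Eventually.of_forall fun V => hbd V x
  have hmean : ∀ x : Tor d M, ∫ V, rs V z x x ∂(gau d M v) = gb d M v z := by
    intro x
    have hmp : MeasurePreserving (tr x) (gau d M v) (gau d M v) :=
      (Pool.Agent.BED.H61.cov d M 0 0 x).2.2.2.2.2 v
    have h0 : ∀ V : Tor d M → ℝ, rs (tr x V) z 0 0 = rs V z x x := by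
      intro V
      have := (hral d M V z hz0).2.2.2.2.2.2.1 x 0 0
      rw [this, add_zero]
    have h1 : ∫ V, rs (tr x V) z 0 0 ∂(gau d M v) = ∫ V, rs V z 0 0 ∂(gau d M v) := by
      have := integral_map (μ := gau d M v) (φ := tr x) hmp.measurable.aemeasurable
        (f := fun V => rs V z 0 0) (hcont 0).aestronglyMeasurable
      rw [hmp.map_eq] at this
      exact this.symm
    unfold gb
    rw [← h1]
    exact integral_congr_ae (Eventually.of_forall fun V => (h0 V).symm)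
  -- the two families of events
  have hRe : ∀ x : Tor d M, gau d M v {V | V ∈ S ∧ r + 2 * (1 / η) * p <
      |(rs V z x x).re - (gb d M v z).re|} ≤
        ENNReal.ofReal (2 * Real.exp (-(r ^ 2 / (5 * ℓ ^ 2 * v)))) := by
    intro x
    have h := hlcc (Tor d M) v S (fun V => (rs V z x x).re) (1 / η) ℓ p r
      (Complex.continuous_re.comp (hcont x)).measurable
      (fun V => (Complex.abs_re_le_norm _).trans (hbd V x)) hℓ0
      (fun V hV V' hV' => by
        have := hLip x V hV V' hV'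
        rw [← Complex.sub_re]
        exact (Complex.abs_re_le_norm _).trans this) hSc hp hr
    have e : ∫ W, (rs W z x x).re ∂(gau d M v) = (gb d M v z).re := by
      rw [← hmean x]
      exact (integral_re (hint x))
    have e' : (∫ W, (rs W z x x).re ∂(Measure.pi fun _ : Tor d M => gaussianReal 0 v)) =
        (gb d M v z).re := e
    rw [e'] at h
    exact h
  have hIm : ∀ x : Tor d M, gau d M v {V | V ∈ S ∧ r + 2 * (1 / η) * p <
      |(rs V z x x).im - (gb d M v z).im|} ≤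
        ENNReal.ofReal (2 * Real.exp (-(r ^ 2 / (5 * ℓ ^ 2 * v)))) := by
    intro x
    have h := hlcc (Tor d M) v S (fun V => (rs V z x x).im) (1 / η) ℓ p r
      (Complex.continuous_im.comp (hcont x)).measurable
      (fun V => (Complex.abs_im_le_norm _).trans (hbd V x)) hℓ0
      (fun V hV V' hV' => by
        have := hLip x V hV V' hV'
        rw [← Complex.sub_im]
        exact (Complex.abs_im_le_norm _).trans this) hSc hp hr
    have e : ∫ W, (rs W z x x).im ∂(gau d M v) = (gb d M v z).im := by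
      rw [← hmean x]
      exact (integral_im (hint x))
    have e' : (∫ W, (rs W z x x).im ∂(Measure.pi fun _ : Tor d M => gaussianReal 0 v)) =
        (gb d M v z).im := e
    rw [e'] at h
    exact h
  -- union bound
  have hsub : {V : Tor d M → ℝ | ¬ ∀ x, ‖rs V z x x - gb d M v z‖ ≤ 2 * r + 4 * p / η} ⊆
      Sᶜ ∪ ⋃ x : Tor d M, ({V | V ∈ S ∧ r + 2 * (1 / η) * p <
        |(rs V z x x).re - (gb d M v z).re|} ∪ {V | V ∈ S ∧ r + 2 * (1 / η) * p <
        |(rs V z x x).im - (gb d M v z).im|}) := by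
    intro V hV
    by_cases hVS : V ∈ S
    · right
      have hV' : ∃ x, ¬ ‖rs V z x x - gb d M v z‖ ≤ 2 * r + 4 * p / η := not_forall.1 hV
      obtain ⟨x, hx⟩ := hV'
      rw [Set.mem_iUnion]
      refine ⟨x, ?_⟩
      by_contra hcon
      rw [Set.mem_union, not_or] at hcon
      have c1 : |(rs V z x x).re - (gb d M v z).re| ≤ r + 2 * (1 / η) * p := by
        by_contra h
        exact hcon.1 ⟨hVS, not_le.1 h⟩
      have c2 : |(rs V z x x).im - (gb d M v z).im| ≤ r + 2 * (1 / η) * p := by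
        by_contra h
        exact hcon.2 ⟨hVS, not_le.1 h⟩
      apply hx
      refine (Complex.norm_le_abs_re_add_abs_im _).trans ?_
      rw [Complex.sub_re, Complex.sub_im]
      refine (add_le_add c1 c2).trans (le_of_eq ?_)
      ring
    · left; exact hVS
  have hex : 0 ≤ Real.exp (-(r ^ 2 / (5 * ℓ ^ 2 * v))) := (Real.exp_pos _).le
  have hcard : (Finset.univ : Finset (Tor d M)).card = M ^ d := by
    rw [Finset.card_univ, Fintype.card_fun, ZMod.card, Fintype.card_fin]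
  calc gau d M v {V : Tor d M → ℝ | ¬ ∀ x, ‖rs V z x x - gb d M v z‖ ≤ 2 * r + 4 * p / η}
      ≤ gau d M v (Sᶜ ∪ ⋃ x : Tor d M, ({V | V ∈ S ∧ r + 2 * (1 / η) * p <
        |(rs V z x x).re - (gb d M v z).re|} ∪ {V | V ∈ S ∧ r + 2 * (1 / η) * p <
        |(rs V z x x).im - (gb d M v z).im|})) := measure_mono hsub
    _ ≤ gau d M v Sᶜ + ∑ x : Tor d M, (gau d M v {V | V ∈ S ∧ r + 2 * (1 / η) * p <
        |(rs V z x x).re - (gb d M v z).re|} + gau d M v {V | V ∈ S ∧ r + 2 * (1 / η) * p <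
        |(rs V z x x).im - (gb d M v z).im|}) := by
        refine (measure_union_le _ _).trans ?_
        gcongr
        refine (measure_iUnion_fintype_le _ _).trans ?_
        exact Finset.sum_le_sum fun x _ => measure_union_le _ _
    _ ≤ ENNReal.ofReal p + ∑ _x : Tor d M, (ENNReal.ofReal (2 * Real.exp (-(r ^ 2 /
        (5 * ℓ ^ 2 * v)))) + ENNReal.ofReal (2 * Real.exp (-(r ^ 2 / (5 * ℓ ^ 2 * v))))) :=
        add_le_add hSc (Finset.sum_le_sum fun x _ => add_le_add (hRe x) (hIm x))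
    _ = ENNReal.ofReal (p + (M : ℝ) ^ d * (4 * Real.exp (-(r ^ 2 / (5 * ℓ ^ 2 * v))))) := by
        rw [Finset.sum_const, hcard, ← ENNReal.ofReal_add (by positivity) (by positivity),
          nsmul_eq_mul, ENNReal.ofReal_add hp (by positivity),
          ENNReal.ofReal_mul (p := (M : ℝ) ^ d) (by positivity)]
        congr 2
        · rw [← Nat.cast_pow, ENNReal.ofReal_natCast]
        · congr 1
          ring

end Pool.Agent.LE.QD.H20
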